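import Mathlib
import Pool.Agent.W192.HK.Parts0

/-! # Project HK, part FINN with `VH`: the final averaging argument -/

set_option autoImplicit false

open Complex Filter Topology Set

namespace Pool.Agent.W768.HK.Finn0

open Pool.Agent.W192.HK

theorem ev_small (A B a b : ℝ) (ha : 0 < a) (hb : 0 < b) :
    ∃ q0 : ℝ, ∀ x : ℝ, q0 ≤ x → A * x ^ (-a) + B * x ^ (-b) < 1 := by
  have h1 : Tendsto (fun x : ℝ => A * x ^ (-a) + B * x ^ (-b)) atTop (𝓝 (A * 0 + B * 0)) :=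
    ((tendsto_rpow_neg_atTop ha).const_mul A).add ((tendsto_rpow_neg_atTop hb).const_mul B)
  have h2 : A * 0 + B * 0 < (1 : ℝ) := by norm_num
  exact eventually_atTop.1 (h1.eventually_lt_const h2)

theorem pw_congr {R : Subring ℂ} (χ : Ideal R → ℂ) (d : ℕ) (hd : Od χ d) (a b : ℕ)
    (h : a ≡ b [MOD d]) : pw χ a = pw χ b := by
  funext I
  unfold pw
  by_cases h0 : χ I = 0
  · rw [if_pos h0, if_pos h0]
  · rw [if_neg h0, if_neg h0, pow_eq_pow_mod a (hd.pow I h0), pow_eq_pow_mod b (hd.pow I h0)]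
    rw [show a % d = b % d from h]

theorem pw_le {R : Subring ℂ} (χ : Ideal R → ℂ) (h : ∀ I : Ideal R, χ I ≠ 0 → ‖χ I‖ = 1)
    (a : ℕ) (I : Ideal R) : ‖pw χ a I‖ ≤ 1 := by
  unfold pw
  by_cases h0 : χ I = 0
  · rw [if_pos h0, norm_zero]
    exact zero_le_one
  · rw [if_neg h0, norm_pow, h I h0, one_pow]

/-- the mollifier is small -/
theorem mol_le {R : Subring ℂ} {ω : ℂ} (hR : QR R ω) (h1 : H_BASIC) (C : ℝ)
    (hfin : ∀ y : ℝ, {I : Ideal R | nm I ≤ y}.Finite)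
    (hC : ∀ y : ℝ, 1 ≤ y → (Set.ncard {I : Ideal R | nm I ≤ y} : ℝ) ≤ C * y)
    (m : Ideal R → ℝ) (hm : Mu R m) (g : Ideal R → ℂ) (hg : Gd R g) (B : ℝ)
    (hB : 1 ≤ B) (χ : Ideal R → ℂ) (hχ : ∀ I, ‖χ I‖ ≤ 1) : ‖mol m g B χ‖ ≤ C * B := by
  classical
  obtain ⟨-, hb2, hb3, -⟩ := h1 R ω hR
  have hterm : ∀ I : Ideal R, ‖(if nm I ≤ B then
      χ I * ((m I : ℂ) * g I) / (nm I : ℂ) else 0 : ℂ)‖ ≤ 1 := by
    intro I
    split_ifs with h
    · by_cases hI : I = ⊥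
      · rw [hI, hb2]
        simp
      · have h2 : 1 ≤ nm I := hb3 I hI
        rw [norm_div, norm_mul, norm_mul, Complex.norm_real, Complex.norm_real,
          Real.norm_of_nonneg (by linarith : 0 ≤ nm I)]
        refine div_le_one_of_le₀ ?_ (by linarith)
        calc ‖χ I‖ * (‖m I‖ * ‖g I‖) ≤ 1 * (1 * Real.sqrt (nm I)) := by
              refine mul_le_mul (hχ _) ?_ (by positivity) zero_le_one
              exact mul_le_mul (hm.le I) (hg.le I) (norm_nonneg _) zero_le_one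
          _ = Real.sqrt (nm I) := by ring
          _ ≤ nm I := by
              rw [Real.sqrt_le_left (by linarith)]
              nlinarith
    · rw [norm_zero]
      exact zero_le_one
  unfold mol
  rw [tsum_eq_sum (s := (hfin B).toFinset)]
  · refine (norm_sum_le _ _).trans ?_
    refine (Finset.sum_le_sum fun β _ => hterm β).trans ?_
    rw [Finset.sum_const, nsmul_eq_mul, mul_one, ← Set.ncard_eq_toFinset_card _ (hfin B)]
    exact hC B hB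
  · intro β hβ
    rw [Set.Finite.mem_toFinset] at hβ
    exact if_neg hβ

/-- small exponents -/
theorem core (h0 : Pool.Agent.W192.CY.S_DIV) (h1 : H_BASIC) (h2 : H_CNT) (h3 : H_MU)
    (h4 : H_MOB) (h5 : N_MAINP) (h6 : N_DUALP) (h7 : H_FPR) (V : ℝ → ℝ) (CV : ℝ)
    (hV : VH V CV) (R : Subring ℂ) (ω : ℂ) (hR : QR R ω)
    (g : Ideal R → ℂ) (hg : Gd R g) (c0 C1 : ℝ) (hc0 : 0 < c0) (hC1 : 0 < C1) (M : ℕ)
    (hM : 1 ≤ M) (ε : ℝ) (hε : 0 < ε) (hsmall : ε < 1 / 12) :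
    ∃ q0 : ℝ, 2 ≤ q0 ∧ ∀ (c : Ideal R) (χ : Ideal R → ℂ), RC c χ → q0 ≤ nm c →
      ∀ d : ℕ, Od χ d → (nm c) ^ (2 / 3 + ε) ≤ d →
      ∀ (q hh : Ideal R) (T : Finset R), q ≠ ⊥ → c ∣ q → nm q ≤ C1 * nm c → hh ≠ ⊥ →
      IsCoprime hh q → Rp q hh T → ∀ k : R → ℂ, (∀ x : R, ‖k x‖ ≤ (nm c) ^ (-1 / 2 : ℝ)) →
      ∀ L : ℕ → ℂ,
        (∀ a : ℕ, Nat.Coprime a d → ∀ X Y : ℝ, 0 < X → 0 < Y → X * Y = c0 * nm c →
          L a = smo V g X (pw χ a) + (∑ x ∈ T, pw χ a (sp x) * k x / pw χ a hh) *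
            (starRingEnd ℂ) (smo V g Y (pw χ a))) →
        ∃ a : ℕ, Nat.Coprime a d ∧ a % M = 1 % M ∧ (nm c) ^ (-ε) ≤ ‖L a‖ := by
  obtain ⟨m, hm⟩ := h3 R ω hR
  obtain ⟨δ1, D1, q1, hδ1, hD1, H1⟩ := h5 V CV hV R ω hR m g hm hg ε hε hsmall
  obtain ⟨δ2, D2, q2, hδ2, hD2, H2⟩ := h6 V CV hV R ω hR m g hm hg (2 * c0) C1 (by linarith) hC1
    ε hε hsmall
  obtain ⟨hfin, -, C3, hC3, hcnt, hord⟩ := h2 R ω hR
  set δ := min δ1 δ2 with hδdef
  have hδ : 0 < δ := lt_min hδ1 hδ2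
  obtain ⟨C4, hC4, -, H4⟩ := h0 (δ / 2) (by linarith)
  set C5 := C4 * C3 ^ (δ / 2) with hC5def
  have hC5 : 0 < C5 := mul_pos hC4 (Real.rpow_pos_of_pos hC3 _)
  obtain ⟨q3, H5⟩ := ev_small ((D1 + D2) * C5 * M) C3 (δ / 2) (ε / 2) (by linarith)
    (by linarith)
  refine ⟨max (max (max q1 q2) q3) 2, le_max_right _ _, ?_⟩
  intro c χ hχ hq0' d hd hle q hh T hq hcq hqC hhne hcop hT k hk L hL
  have hNd : (d : ℝ) ≤ C3 * nm c := (hord c χ hχ d hd).1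
  obtain ⟨-, hχ1, -, -⟩ := h7 R ω hR c χ hχ
  set Q := nm c with hQ
  have hq0 : max (max q1 q2) q3 ≤ Q := le_trans (le_max_left _ _) hq0'
  have hq2 : (2 : ℝ) ≤ Q := le_trans (le_max_right _ _) hq0'
  have hqpos : (0 : ℝ) < Q := by linarith
  have hq1 : (1 : ℝ) ≤ Q := by linarith
  have hqa : q1 ≤ Q := le_trans (le_trans (le_max_left _ _) (le_max_left _ _)) hq0
  have hqb : q2 ≤ Q := le_trans (le_trans (le_max_right _ _) (le_max_left _ _)) hq0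
  have hqc : q3 ≤ Q := le_trans (le_max_right _ _) hq0
  have hd1 : (1 : ℝ) < d := by
    refine lt_of_lt_of_le ?_ hle
    exact Real.one_lt_rpow (by linarith) (by linarith)
  have hd1' : 1 < d := by exact_mod_cast hd1
  have hdpos : (0 : ℝ) < d := by linarith
  by_contra hcon
  push Not at hcon
  set M₁ := Nat.gcd M d with hM₁
  have hM₁1 : 1 ≤ M₁ := Nat.gcd_pos_of_pos_left _ (by omega)
  have hM₁d : M₁ ∣ d := Nat.gcd_dvd_right _ _
  have hM₁0 : M₁ ≤ M := Nat.gcd_le_left _ (by omega)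
  -- the two parts
  have hMn := H1 c χ hχ hqa d hd hle M₁ hM₁1 hM₁d
  have hDn := H2 c χ hχ hqb d hd hle M₁ hM₁1 hM₁d q hh T hq hcq hqC hhne hcop hT k hk
  -- sizes
  set B := Q ^ (ε / 2) with hB
  have hBpos : 0 < B := Real.rpow_pos_of_pos hqpos _
  have hB1 : 1 ≤ B := Real.one_le_rpow hq1 (by linarith)
  set X := Q ^ (2 / 3 : ℝ) / 2 with hX
  set Y := 2 * c0 * Q ^ (1 / 3 : ℝ) with hY
  have hXpos : 0 < X := half_pos (Real.rpow_pos_of_pos hqpos _)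
  have hYpos : 0 < Y := mul_pos (by linarith) (Real.rpow_pos_of_pos hqpos _)
  have hXY : X * Y = c0 * Q := by
    have : Q ^ (2 / 3 : ℝ) * Q ^ (1 / 3 : ℝ) = Q := by
      rw [← Real.rpow_add hqpos]
      norm_num
    calc X * Y = c0 * (Q ^ (2 / 3 : ℝ) * Q ^ (1 / 3 : ℝ)) := by rw [hX, hY]; ring
      _ = c0 * Q := by rw [this]
  have hEa : ∀ a ∈ Ea d M₁, Nat.Coprime a d ∧ ‖L a‖ ≤ Q ^ (-ε) := by
    intro a ha
    unfold Ea at ha
    rw [Finset.mem_filter] at ha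
    obtain ⟨-, ha1, ha2⟩ := ha
    have ha2' : a ≡ 1 [MOD Nat.gcd d M] := by
      rw [Nat.gcd_comm]
      exact ha2
    obtain ⟨a', e1, e2⟩ := Nat.chineseRemainder' (n := d) (m := M) (a := a) (b := 1) ha2'
    have h3 : Nat.Coprime a' d := by
      have h4 := Nat.ModEq.gcd_eq e1
      rw [Nat.Coprime, h4]
      exact ha1
    refine ⟨ha1, ?_⟩
    have h5 : L a = L a' := by
      rw [hL a ha1 X Y hXpos hYpos hXY, hL a' h3 X Y hXpos hYpos hXY,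
        pw_congr χ d hd a' a e1]
    rw [h5]
    exact (hcon a' h3 e2).le
  have hL' : ∀ a ∈ Ea d M₁, L a = smo V g X (pw χ a) +
      (∑ x ∈ T, pw χ a (sp x) * k x / pw χ a hh) * (starRingEnd ℂ) (smo V g Y (pw χ a)) := by
    intro a ha
    exact hL a (hEa a ha).1 X Y hXpos hYpos hXY
  set S := ∑ a ∈ Ea d M₁, mol m g B (pw χ a) * smo V g X (pw χ a) with hS
  set D := ∑ a ∈ Ea d M₁, mol m g B (pw χ a) *
      (∑ x ∈ T, pw χ a (sp x) * k x / pw χ a hh) *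
      (starRingEnd ℂ) (smo V g Y (pw χ a)) with hD
  have hTot : ∑ a ∈ Ea d M₁, mol m g B (pw χ a) * L a = S + D := by
    rw [hS, hD, ← Finset.sum_add_distrib]
    refine Finset.sum_congr rfl fun a ha => ?_
    rw [hL' a ha]
    ring
  obtain ⟨K, hK⟩ : ∃ K : ℕ, K = (Ea d M₁).card := ⟨_, rfl⟩
  have hcard0 : K * Nat.totient M₁ = Nat.totient d := by
    obtain ⟨t, ht, -⟩ := h4 d M₁ (by omega) (by omega) hM₁d
    rw [hK]
    exact ht
  have hφpos : (0 : ℝ) < Nat.totient d := by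
    exact_mod_cast Nat.totient_pos.2 (by omega)
  have hKφ : (Nat.totient d : ℝ) ≤ K * M := by
    rw [← hcard0]
    push_cast
    have : (Nat.totient M₁ : ℝ) ≤ M := by
      exact_mod_cast (Nat.totient_le M₁).trans hM₁0
    gcongr
  have hKpos : (0 : ℝ) < K := by
    rcases Nat.eq_zero_or_pos K with h | h
    · rw [h, Nat.cast_zero, zero_mul] at hKφ
      linarith
    · exact_mod_cast h
  rw [← hK] at hMn
  -- upper bound
  have hupper : ‖S + D‖ ≤ C3 * (K : ℝ) * Q ^ (-(ε / 2)) := by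
    rw [← hTot]
    calc ‖∑ a ∈ Ea d M₁, mol m g B (pw χ a) * L a‖
        ≤ ∑ a ∈ Ea d M₁, ‖mol m g B (pw χ a) * L a‖ := norm_sum_le _ _
      _ ≤ ∑ a ∈ Ea d M₁, (C3 * B) * Q ^ (-ε) := by
          refine Finset.sum_le_sum fun a ha => ?_
          rw [norm_mul]
          exact mul_le_mul (mol_le hR h1 C3 hfin hcnt m hm g hg B hB1 (pw χ a)
            (fun I => pw_le χ hχ1 a I)) (hEa a ha).2 (norm_nonneg _) (by positivity)
      _ = (K : ℝ) * ((C3 * B) * Q ^ (-ε)) := by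
          rw [Finset.sum_const, nsmul_eq_mul, hK]
      _ = C3 * (K : ℝ) * (Q ^ (ε / 2) * Q ^ (-ε)) := by rw [hB]; ring
      _ = C3 * (K : ℝ) * Q ^ (-(ε / 2)) := by
          rw [← Real.rpow_add hqpos]
          congr 2
          ring
  -- lower bound
  have hlow : (K : ℝ) ≤ ‖S + D‖ + D1 * d * Q ^ (-δ1) + D2 * d * Q ^ (-δ2) := by
    have e1 : ((K : ℕ) : ℂ) = (S + D) - (S - (K : ℂ)) - D := by
      ring
    calc (K : ℝ) = ‖((K : ℕ) : ℂ)‖ := by simp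
      _ = ‖(S + D) - (S - (K : ℂ)) - D‖ := by rw [← e1]
      _ ≤ ‖(S + D) - (S - (K : ℂ))‖ + ‖D‖ := norm_sub_le _ _
      _ ≤ ‖S + D‖ + ‖S - (K : ℂ)‖ + ‖D‖ := by
          gcongr
          exact norm_sub_le _ _
      _ ≤ _ := by
          gcongr
  have hq1' : Q ^ (-δ1) ≤ Q ^ (-δ) :=
    Real.rpow_le_rpow_of_exponent_le hq1 (neg_le_neg (min_le_left _ _))
  have hq2' : Q ^ (-δ2) ≤ Q ^ (-δ) :=
    Real.rpow_le_rpow_of_exponent_le hq1 (neg_le_neg (min_le_right _ _))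
  have hφ := H4 d (by omega)
  have hdφ : (d : ℝ) * Q ^ (-δ) ≤ C5 * Nat.totient d * Q ^ (-(δ / 2)) := by
    have e1 : (d : ℝ) = (d : ℝ) ^ (1 - δ / 2) * (d : ℝ) ^ (δ / 2) := by
      rw [← Real.rpow_add hdpos]
      simp
    have e2 : (d : ℝ) ^ (δ / 2) ≤ C3 ^ (δ / 2) * Q ^ (δ / 2) := by
      rw [← Real.mul_rpow hC3.le hqpos.le]
      exact Real.rpow_le_rpow hdpos.le hNd (by linarith)
    calc (d : ℝ) * Q ^ (-δ)
        = (d : ℝ) ^ (1 - δ / 2) * (d : ℝ) ^ (δ / 2) * Q ^ (-δ) := by rw [← e1]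
      _ ≤ (C4 * Nat.totient d) * (C3 ^ (δ / 2) * Q ^ (δ / 2)) * Q ^ (-δ) := by
          gcongr
      _ = C5 * Nat.totient d * (Q ^ (δ / 2) * Q ^ (-δ)) := by rw [hC5def]; ring
      _ = C5 * Nat.totient d * Q ^ (-(δ / 2)) := by
          rw [← Real.rpow_add hqpos]
          congr 2
          ring
  have hfin' := H5 Q hqc
  have key : (K : ℝ) ≤ K *
      ((D1 + D2) * C5 * M * Q ^ (-(δ / 2)) + C3 * Q ^ (-(ε / 2))) := by
    calc (K : ℝ) ≤ ‖S + D‖ + D1 * d * Q ^ (-δ1) +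
          D2 * d * Q ^ (-δ2) := hlow
      _ ≤ C3 * K * Q ^ (-(ε / 2)) + D1 * d * Q ^ (-δ) +
          D2 * d * Q ^ (-δ) := by gcongr
      _ = C3 * K * Q ^ (-(ε / 2)) + (D1 + D2) * (d * Q ^ (-δ)) := by
          ring
      _ ≤ C3 * K * Q ^ (-(ε / 2)) + (D1 + D2) *
          (C5 * Nat.totient d * Q ^ (-(δ / 2))) := by gcongr
      _ ≤ C3 * K * Q ^ (-(ε / 2)) + (D1 + D2) *
          (C5 * (K * M) * Q ^ (-(δ / 2))) := by gcongr
      _ = _ := by ring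
  have : (K : ℝ) * ((D1 + D2) * C5 * M * Q ^ (-(δ / 2)) +
      C3 * Q ^ (-(ε / 2))) < K * 1 := by
    gcongr
  linarith

theorem n_finn (h0 : Pool.Agent.W192.CY.S_DIV) (h1 : H_BASIC) (h2 : H_CNT) (h3 : H_MU)
    (h4 : H_MOB) (h5 : N_MAINP) (h6 : N_DUALP) (h7 : H_FPR) : N_FINN := by
  intro V CV hV R ω hR g hg c0 C1 hc0 hC1 M hM ε hε
  obtain ⟨q0, hq0, H⟩ := core h0 h1 h2 h3 h4 h5 h6 h7 V CV hV R ω hR g hg c0 C1 hc0 hC1 M hM
    (min ε (1 / 24)) (lt_min hε (by norm_num)) (lt_of_le_of_lt (min_le_right _ _) (by norm_num))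
  refine ⟨q0, fun c χ hχ hqc d hd hle q hh T hq hcq hqC hhne hcop hT k hk L hL => ?_⟩
  have hN1 : (1 : ℝ) ≤ nm c := by linarith
  obtain ⟨a, ha1, ha2, ha3⟩ := H c χ hχ hqc d hd
    ((Real.rpow_le_rpow_of_exponent_le hN1 (by linarith [min_le_left ε (1 / 24)])).trans hle)
    q hh T hq hcq hqC hhne hcop hT k hk L hL
  refine ⟨a, ha1, ha2, le_trans ?_ ha3⟩
  exact Real.rpow_le_rpow_of_exponent_le hN1 (neg_le_neg (min_le_left _ _))

end Pool.Agent.W768.HK.Finn0
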